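import Mathlib

/-!
# Geodesic Leech labelings of wheel graphs

The wheels `W_7`, `W_8`, `W_9`, `W_10` and `W_11` are geodesic Leech graphs, so the assertion
that no wheel `W_n` with `n ≥ 7` is a geodesic Leech graph is false.
-/

namespace Pool.Agent.Results.MP_071a69_co.WheelsLeech

open SimpleGraph

/-- The wheel `W_n` on `n` vertices: a cycle on the `n - 1` vertices `some i` and a further
vertex `none` adjacent to all of them. -/
def wheel (n : ℕ) : SimpleGraph (Option (Fin (n - 1))) where
  Adj x y := match x, y with
    | none, none => False
    | none, some _ => True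
    | some _, none => True
    | some i, some j => (cycleGraph (n - 1)).Adj i j
  symm := ⟨fun x y h => by
    cases x <;> cases y <;> first | exact h | exact trivial | exact SimpleGraph.Adj.symm h⟩
  loopless := ⟨fun x h => by
    cases x
    · exact h
    · exact (cycleGraph (n - 1)).loopless.irrefl _ h⟩

variable {V : Type*} [DecidableEq V]

/-- The geodesic paths of `G`, each given by its set of edges: the edge sets of the paths with at
least one edge whose length is the distance of their ends. A path and its reverse have the
same edge set, and paths that are not equal or reverse to each other have different ones. -/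
def geodesics (G : SimpleGraph V) : Set (Finset (Sym2 V)) :=
  {S | ∃ (u v : V) (p : G.Walk u v), p.IsPath ∧ 0 < p.length ∧ p.length = G.dist u v ∧
    p.edges.toFinset = S}

/-- `G` is a geodesic Leech graph: for some labeling of the edges with positive integers the set
of the weights of the geodesic paths is `{1, ..., t}`, `t` the number of geodesic paths. -/
def IsGeodesicLeech (G : SimpleGraph V) : Prop :=
  ∃ f : Sym2 V → ℕ, (∀ e ∈ G.edgeSet, 0 < f e) ∧
    (fun S : Finset (Sym2 V) => ∑ e ∈ S, f e) '' geodesics G = Set.Icc 1 (geodesics G).ncard

/-! ### Proof -/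

section proof

variable {m : ℕ} [NeZero m]

/-- index set of the geodesic paths -/
abbrev Idx (m : ℕ) := Fin m ⊕ Fin m ⊕ Fin m ⊕ (Fin m × Fin m)

/-- cyclic adjacency -/
def cadj (i j : Fin m) : Bool := decide (j = i + 1) || decide (i = j + 1)

/-- the allowed indices -/
def good : Idx m → Bool
  | .inl _ => true
  | .inr (.inl _) => true
  | .inr (.inr (.inl _)) => true
  | .inr (.inr (.inr (i, j))) => decide (i < j) && !(cadj i j)

/-- the edge set -/
def phi : Idx m → Finset (Sym2 (Option (Fin m)))
  | .inl i => {s(none, some i)}
  | .inr (.inl i) => {s(some i, some (i + 1))}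
  | .inr (.inr (.inl i)) => {s(some (i - 1), some i), s(some i, some (i + 1))}
  | .inr (.inr (.inr (i, j))) => {s(none, some i), s(none, some j)}

/-- its weight -/
def wt (s r : Fin m → ℕ) : Idx m → ℕ
  | .inl i => s i
  | .inr (.inl i) => r i
  | .inr (.inr (.inl i)) => r (i - 1) + r i
  | .inr (.inr (.inr (i, j))) => s i + s j

/-- the edge labeling -/
def lab (s r : Fin m → ℕ) : Sym2 (Option (Fin m)) → ℕ :=
  Sym2.lift ⟨fun x y => match x, y with
    | none, none => 0
    | none, some i => s i
    | some i, none => s i
    | some i, some j => (if j = i + 1 then r i else 0) + (if i = j + 1 then r j else 0),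
    fun x y => by cases x <;> cases y <;> simp [add_comm]⟩

theorem key (G : SimpleGraph (Option (Fin m)))
    (hG1 : ∀ i, G.Adj none (some i)) (hG2 : ∀ i j, G.Adj (some i) (some j) ↔ cadj i j = true)
    (h1 : ∀ i : Fin m, i ≠ i + 1) (h2 : ∀ i : Fin m, i ≠ i + 1 + 1)
    (h3 : ∀ i : Fin m, i - 1 ≠ i + 1 ∧ cadj (i - 1) (i + 1) = false)
    (h4 : ∀ i : Fin m, i - 1 + 1 = i)
    (h5 : ∀ i k : Fin m, cadj i k = true → i = k - 1 ∨ i = k + 1)
    (s r : Fin m → ℕ) (T : ℕ)
    (hs : ∀ i, 0 < s i) (hr : ∀ i, 0 < r i)
    (hcard : (Finset.univ.filter (fun x : Idx m => good x = true)).card = T)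
    (himg : (Finset.univ.filter (fun x : Idx m => good x = true)).image (wt s r) =
      Finset.Icc 1 T) : IsGeodesicLeech G := by
  classical
  have hself : ∀ i : Fin m, cadj i (i + 1) = true := fun i => by simp [cadj]
  have hself' : ∀ i : Fin m, cadj (i - 1) i = true := fun i => by
    have := hself (i - 1); rwa [h4] at this
  have hGn : ∀ i, G.Adj (some i) none := fun i => (hG1 i).symm
  -- labels
  have lab1 : ∀ i, lab s r s(none, some i) = s i := fun i => by simp [lab]
  have lab2 : ∀ i, lab s r s(some i, some (i + 1)) = r i := fun i => by
    simp only [lab, Sym2.lift_mk]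
    simp [h2 i]
  have lab3 : ∀ i, lab s r s(some (i - 1), some i) = r (i - 1) := fun i => by
    have := lab2 (i - 1); rwa [h4] at this
  have hsum : ∀ x : Idx m, good x = true → ∑ e ∈ phi x, lab s r e = wt s r x := by
    rintro (i | i | i | ⟨i, j⟩) hx
    · simp [phi, wt, lab1]
    · simp [phi, wt, lab2]
    · simp only [phi, wt]
      rw [Finset.sum_pair, lab3, lab2]
      intro h
      rw [Sym2.eq_iff] at h
      rcases h with ⟨ha, hb⟩ | ⟨ha, hb⟩
      · exact h1 i (Option.some.inj hb)
      · exact (h3 i).1 (Option.some.inj ha)
    · simp only [phi, wt]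
      rw [Finset.sum_pair, lab1, lab1]
      intro h
      simp only [good, Bool.and_eq_true, decide_eq_true_eq] at hx
      rw [Sym2.eq_iff] at h
      rcases h with ⟨ha, hb⟩ | ⟨ha, hb⟩
      · exact absurd (Option.some.inj hb) hx.1.ne
      · exact absurd ha (by simp)
  -- distances
  have hd2 : ∀ u v w, G.Adj u w → G.Adj w v → u ≠ v → ¬ G.Adj u v → G.dist u v = 2 := by
    intro u v w huw hwv huv hn
    have hle : G.dist u v ≤ 2 := by
      have := SimpleGraph.dist_le (Walk.cons huw (Walk.cons hwv Walk.nil))
      simpa using this
    have hreach : G.Reachable u v := ⟨Walk.cons huw (Walk.cons hwv Walk.nil)⟩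
    have h0 : G.dist u v ≠ 0 := fun h => huv (hreach.dist_eq_zero_iff.1 h)
    have h1' : G.dist u v ≠ 1 := fun h => hn (SimpleGraph.dist_eq_one_iff_adj.1 h)
    omega
  have hle2 : ∀ u v, G.dist u v ≤ 2 := by
    intro u v
    rcases u with _ | i
    · rcases v with _ | j
      · simp
      · have := (SimpleGraph.dist_eq_one_iff_adj.2 (hG1 j)); omega
    · rcases v with _ | j
      · have := (SimpleGraph.dist_eq_one_iff_adj.2 (hGn i)); omega
      · have := SimpleGraph.dist_le (Walk.cons (hGn i) (Walk.cons (hG1 j) Walk.nil))
        simpa using this
  -- description of the geodesics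
  have hgeo : geodesics G = phi '' {x : Idx m | good x = true} := by
    ext S
    constructor
    · rintro ⟨u, v, p, hp, hpos, hlen, rfl⟩
      have hl : p.length ≤ 2 := hlen ▸ hle2 u v
      match p, hp, hpos, hlen, hl with
      | .cons h .nil, _, _, _, _ =>
        rcases u with _ | i
        · rcases v with _ | j
          · exact absurd h (G.loopless.irrefl _)
          · exact ⟨.inl j, rfl, by simp [phi]⟩
        · rcases v with _ | j
          · exact ⟨.inl i, rfl, by simp [phi, Sym2.eq_swap]⟩
          · have hc := (hG2 i j).1 h
            rcases h5 i j hc with hij | hij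
            · refine ⟨.inr (.inl i), rfl, ?_⟩
              have : j = i + 1 := by rw [hij, h4]
              subst this
              simp [phi]
            · refine ⟨.inr (.inl j), rfl, ?_⟩
              subst hij
              simp [phi, Sym2.eq_swap]
      | .cons (v := w) h (.cons h' .nil), hp, _, hlen, _ =>
        have hdist : G.dist u v = 2 := by rw [← hlen]; simp
        have huv : u ≠ v := by
          rintro rfl
          simp at hdist
        have hnadj : ¬ G.Adj u v := by
          intro ha
          have := SimpleGraph.dist_eq_one_iff_adj.2 ha
          omega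
        rcases u with _ | i
        · rcases v with _ | j
          · exact absurd rfl huv
          · exact absurd (hG1 j) hnadj
        · rcases v with _ | j
          · exact absurd (hGn i) hnadj
          · have hij : i ≠ j := fun h => huv (by rw [h])
            have hcf : cadj i j = false := by
              rcases hb : cadj i j with _ | _
              · rfl
              · exact absurd ((hG2 i j).2 hb) hnadj
            have hcf' : cadj j i = false := by
              rcases hb : cadj j i with _ | _
              · rfl
              · exact absurd ((hG2 j i).2 hb).symm hnadj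
            rcases w with _ | k
            · rcases lt_or_gt_of_ne hij with hlt | hlt
              · refine ⟨.inr (.inr (.inr (i, j))), by simp [good, hlt, hcf], ?_⟩
                simp [phi, Sym2.eq_swap]
              · refine ⟨.inr (.inr (.inr (j, i))), by simp [good, hlt, hcf'], ?_⟩
                simp only [phi, Walk.edges_cons, Walk.edges_nil, List.toFinset_cons,
                  List.toFinset_nil, insert_empty_eq]
                rw [Finset.pair_comm, Sym2.eq_swap]
            · have hik := h5 i k ((hG2 i k).1 h)
              have hjk := h5 j k ((hG2 j k).1 h'.symm)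
              rcases hik with hik | hik <;> rcases hjk with hjk | hjk
              · exact absurd (hik.trans hjk.symm) hij
              · refine ⟨.inr (.inr (.inl k)), rfl, ?_⟩
                subst hik; subst hjk
                simp [phi]
              · refine ⟨.inr (.inr (.inl k)), rfl, ?_⟩
                subst hik; subst hjk
                simp only [phi, Walk.edges_cons, Walk.edges_nil, List.toFinset_cons,
                  List.toFinset_nil, insert_empty_eq]
                rw [Finset.pair_comm, Sym2.eq_swap (a := some k) (b := some (k + 1)),
                  Sym2.eq_swap (a := some (k - 1)) (b := some k)]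
              · exact absurd (hik.trans hjk.symm) hij
    · rintro ⟨x, hx, rfl⟩
      rcases x with i | i | i | ⟨i, j⟩
      · refine ⟨none, some i, .cons (hG1 i) .nil, ?_, by simp, ?_, by simp [phi]⟩
        · simp
        · rw [SimpleGraph.dist_eq_one_iff_adj.2 (hG1 i)]; simp
      · have ha : G.Adj (some i) (some (i + 1)) := (hG2 _ _).2 (hself i)
        refine ⟨some i, some (i + 1), .cons ha .nil, ?_, by simp, ?_, by simp [phi]⟩
        · simp [h1 i]
        · rw [SimpleGraph.dist_eq_one_iff_adj.2 ha]; simp
      · have ha : G.Adj (some (i - 1)) (some i) := (hG2 _ _).2 (hself' i)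
        have hb : G.Adj (some i) (some (i + 1)) := (hG2 _ _).2 (hself i)
        have hne : (some (i - 1) : Option (Fin m)) ≠ some (i + 1) :=
          fun h => (h3 i).1 (Option.some.inj h)
        have hna : ¬ G.Adj (some (i - 1)) (some (i + 1)) := by
          rw [hG2, (h3 i).2]; simp
        refine ⟨some (i - 1), some (i + 1), .cons ha (.cons hb .nil), ?_, by simp, ?_,
          by simp [phi]⟩
        · simp [h1 i, hne, ha.ne]
        · rw [hd2 _ _ _ ha hb hne hna]; simp
      · simp only [Set.mem_ofPred_eq, good, Bool.and_eq_true, decide_eq_true_eq,
          Bool.not_eq_true'] at hx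
        have hne : (some i : Option (Fin m)) ≠ some j := fun h => hx.1.ne (Option.some.inj h)
        have hna : ¬ G.Adj (some i) (some j) := by
          rw [hG2, hx.2]; simp
        refine ⟨some i, some j, .cons (hGn i) (.cons (hG1 j) .nil), ?_, by simp, ?_,
          by simp [phi, Sym2.eq_swap]⟩
        · simp [hx.1.ne]
        · rw [hd2 _ _ _ (hGn i) (hG1 j) hne hna]; simp
  -- the weights
  set I : Finset (Idx m) := Finset.univ.filter (fun x : Idx m => good x = true) with hI
  have hIset : {x : Idx m | good x = true} = (I : Set (Idx m)) := by
    ext x; simp [hI]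
  have hinj : Set.InjOn (wt s r) (I : Set (Idx m)) := by
    rw [← Finset.card_image_iff, himg, hcard]
    simp
  have hphinj : Set.InjOn (phi : Idx m → _) (I : Set (Idx m)) := by
    intro x hx y hy hxy
    apply hinj hx hy
    have hgx : good x = true := by simpa [hI] using hx
    have hgy : good y = true := by simpa [hI] using hy
    rw [← hsum x hgx, ← hsum y hgy, hxy]
  have hncard : (geodesics G).ncard = T := by
    rw [hgeo, hIset, Set.InjOn.ncard_image hphinj, Set.ncard_coe_finset, hcard]
  refine ⟨lab s r, ?_, ?_⟩
  · intro e he
    induction e with
    | _ u v =>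
      rw [SimpleGraph.mem_edgeSet] at he
      rcases u with _ | i
      · rcases v with _ | j
        · exact absurd he (G.loopless.irrefl _)
        · simpa [lab1] using hs j
      · rcases v with _ | j
        · rw [Sym2.eq_swap]; simpa [lab1] using hs i
        · rcases h5 i j ((hG2 i j).1 he) with hij | hij
          · have : j = i + 1 := by rw [hij, h4]
            subst this
            rw [lab2]; exact hr i
          · subst hij
            rw [Sym2.eq_swap, lab2]; exact hr j
  · rw [hncard, hgeo, Set.image_image, hIset]
    have : (fun x => ∑ e ∈ phi x, lab s r e) '' (I : Set (Idx m)) =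
        (wt s r) '' (I : Set (Idx m)) := by
      apply Set.image_congr
      intro x hx
      exact hsum x (by simpa [hI] using hx)
    rw [this, ← Finset.coe_image, himg, Finset.coe_Icc]

end proof

/-- The wheels with `7 ≤ n ≤ 11` vertices are geodesic Leech graphs. -/
theorem result : ∀ n : ℕ, 7 ≤ n → n ≤ 11 → IsGeodesicLeech (wheel n) := by
  intro n h7 h11
  interval_cases n
  · exact key (m := 6) (wheel 7) (fun _ => trivial)
      (by
        intro i j
        change (cycleGraph 6).Adj i j ↔ _
        revert i j; decide)
      (by decide) (by decide) (by decide) (by decide) (by decide)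
      ![1, 2, 3, 8, 23, 14] ![5, 6, 15, 12, 7, 13] 27 (by decide) (by decide) (by decide)
      (by decide)
  · exact key (m := 7) (wheel 8) (fun _ => trivial)
      (by
        intro i j
        change (cycleGraph 7).Adj i j ↔ _
        revert i j; decide)
      (by decide) (by decide) (by decide) (by decide) (by decide)
      ![1, 2, 3, 5, 13, 30, 21] ![8, 17, 11, 18, 9, 10, 12] 35 (by decide) (by decide)
      (by decide) (by decide)
  · exact key (m := 8) (wheel 9) (fun _ => trivial)
      (by
        intro i j
        change (cycleGraph 8).Adj i j ↔ _
        revert i j; decide)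
      (by decide) (by decide) (by decide) (by decide) (by decide)
      ![1, 2, 3, 5, 8, 16, 31, 22] ![12, 14, 23, 20, 15, 29, 13, 28] 44 (by decide) (by decide)
      (by decide) (by decide)
  · exact key (m := 9) (wheel 10) (fun _ => trivial)
      (by
        intro i j
        change (cycleGraph 9).Adj i j ↔ _
        revert i j; decide)
      (by decide) (by decide) (by decide) (by decide) (by decide)
      ![1, 2, 12, 17, 14, 23, 20, 27, 31] ![3, 7, 42, 4, 5, 47, 6, 30, 8] 54 (by decide)
      (by decide) (by decide) (by decide)
  · exact key (m := 10) (wheel 11) (fun _ => trivial)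
      (by
        intro i j
        change (cycleGraph 10).Adj i j ↔ _
        revert i j; decide)
      (by decide) (by decide) (by decide) (by decide) (by decide)
      ![1, 9, 15, 12, 41, 43, 23, 18, 5, 22] ![2, 8, 3, 36, 26, 25, 4, 53, 7, 47] 65
      (by decide) (by decide) (by decide) (by decide)

end Pool.Agent.Results.MP_071a69_co.WheelsLeech
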